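import Pool.Agent.Helper80.LocMinMain

set_option autoImplicit false

universe u v

open Pool.Agent.Helper80.LocMin in
/-- If `G` is a precompact, sequentially complete, locally minimal nilpotent group and the weight of
`c(G)` is not Ulam-measurable, then `c(G) = c(K)`, where `K` is the (compact) completion of `G`. -/
theorem Pool.Agent.Results.MP_12f6a1_al.ComponentComplete.result {G : Type u} {K : Type v}
    [Group G] [TopologicalSpace G] [IsTopologicalGroup G] [Group K] [TopologicalSpace K]
    (i : G →* K) (hK : IsCompactCompletion i)
    (hseq : IsSeqComplete G) (hlm : IsLocallyMinimal G) (hnil : Group.IsNilpotent G)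
    (hw : ¬ UlamMeasurable (weight (connectedComponent (1 : G)))) :
    i '' connectedComponent (1 : G) = connectedComponent (1 : K) :=
  main i hK hseq hlm hnil hw
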